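import Pool.Agent.H757R2.LP.A3

set_option autoImplicit false

/-! Line integral representation of `L`, part 4: `A_int` and `A_line`. -/

open Polynomial Filter Topology MeasureTheory

namespace Pool.Agent.H757R2.LP

open Pool.Agent.LP

noncomputable section

lemma H00 : H 0 0 = ((Real.log 2 : ℝ) : ℂ) := by
  rw [H_eq 0 (by norm_num) 0, integral_complex_ofReal]
  congr 1
  have hd : ∀ u : ℝ, HasDerivAt (fun u : ℝ => -Real.log (1 + Real.exp (-u))) (1 / (1 + Real.exp u)) u := by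
    intro u
    have h1 : HasDerivAt (fun u : ℝ => -u) (-1) u := by
      simpa using (hasDerivAt_id u).fun_neg
    have h2 := Real.exp_pos (-u)
    have h3 := (((h1.exp).const_add 1).log (by positivity)).fun_neg
    refine h3.congr_deriv ?_
    have h4 : Real.exp u * Real.exp (-u) = 1 := by rw [← Real.exp_add]; simp
    have h5 := Real.exp_pos u
    field_simp
    linear_combination h4
  have ht : Tendsto (fun u : ℝ => -Real.log (1 + Real.exp (-u))) atTop (𝓝 0) := by
    have h1 : Tendsto (fun u : ℝ => Real.exp (-u)) atTop (𝓝 0) :=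
      Real.tendsto_exp_atBot.comp tendsto_neg_atTop_atBot
    have h2 : Tendsto (fun u : ℝ => 1 + Real.exp (-u)) atTop (𝓝 (1 + 0)) := h1.const_add 1
    rw [add_zero] at h2
    have h3 := ((Real.continuousAt_log one_ne_zero).tendsto.comp h2).neg
    rw [Real.log_one, neg_zero] at h3
    exact h3
  have hi : IntegrableOn (fun u : ℝ => 1 / (1 + Real.exp u)) (Set.Ioi 0) := by
    have h1 := (H_u_int 0 0).re
    refine h1.congr (Eventually.of_forall fun u => ?_)
    change (((u ^ 0 * Real.exp (-(((0 : ℕ) : ℝ) * u)) * (1 / (1 + Real.exp u)) : ℝ) : ℂ)).re = _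
    rw [Complex.ofReal_re]
    simp
  have h := integral_Ioi_of_hasDerivAt_of_tendsto' (a := 0) (fun x _ => hd x) hi ht
  have e : ∀ u : ℝ, u ^ 0 * Real.exp (-(((0 : ℕ) : ℝ) * u)) * (1 / (1 + Real.exp u)) = 1 / (1 + Real.exp u) := by
    intro u
    simp
  simp_rw [e]
  rw [h]
  simp
  norm_num

lemma hasSum_alt : HasSum (fun n : ℕ => (-1 : ℝ) ^ n / (n : ℝ) ^ 2) (-(Real.pi ^ 2 / 12)) := by
  have h := hasSum_zeta_two
  have he : HasSum (fun m : ℕ => (1 : ℝ) / ((2 * m : ℕ) : ℝ) ^ 2) (1 / 4 * (Real.pi ^ 2 / 6)) := by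
    have h1 := h.mul_left (1 / 4 : ℝ)
    have e : (fun m : ℕ => (1 : ℝ) / ((2 * m : ℕ) : ℝ) ^ 2) = fun m : ℕ => 1 / 4 * (1 / (m : ℝ) ^ 2) := by
      funext m
      push_cast
      ring
    rw [e]
    exact h1
  have ho : Summable (fun m : ℕ => (1 : ℝ) / ((2 * m + 1 : ℕ) : ℝ) ^ 2) :=
    h.summable.comp_injective (i := fun m : ℕ => 2 * m + 1) (fun a b hab => by
      simp only at hab
      omega)
  have hov : ∑' m : ℕ, (1 : ℝ) / ((2 * m + 1 : ℕ) : ℝ) ^ 2 = Real.pi ^ 2 / 8 := by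
    have h2 := (HasSum.even_add_odd (f := fun n : ℕ => (1 : ℝ) / (n : ℝ) ^ 2) he ho.hasSum).unique h
    linarith
  have ho' : HasSum (fun m : ℕ => (1 : ℝ) / ((2 * m + 1 : ℕ) : ℝ) ^ 2) (Real.pi ^ 2 / 8) := by
    rw [← hov]
    exact ho.hasSum
  have h3 : HasSum (fun n : ℕ => (-1 : ℝ) ^ n / (n : ℝ) ^ 2) (1 / 4 * (Real.pi ^ 2 / 6) + -(Real.pi ^ 2 / 8)) := by
    refine HasSum.even_add_odd ?_ ?_
    · have e : (fun m : ℕ => (-1 : ℝ) ^ (2 * m) / ((2 * m : ℕ) : ℝ) ^ 2) =
          fun m : ℕ => (1 : ℝ) / ((2 * m : ℕ) : ℝ) ^ 2 := by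
        funext m
        rw [pow_mul]
        simp
      rw [e]
      exact he
    · have e : (fun m : ℕ => (-1 : ℝ) ^ (2 * m + 1) / ((2 * m + 1 : ℕ) : ℝ) ^ 2) =
          fun m : ℕ => -((1 : ℝ) / ((2 * m + 1 : ℕ) : ℝ) ^ 2) := by
        funext m
        rw [pow_succ, pow_mul]
        norm_num
        ring
      rw [e]
      exact ho'.neg
  have h4 : 1 / 4 * (Real.pi ^ 2 / 6) + -(Real.pi ^ 2 / 8) = -(Real.pi ^ 2 / 12) := by ring
  rwa [h4] at h3

lemma H10 : H 1 0 = ((Real.pi ^ 2 / 12 : ℝ) : ℂ) := by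
  have h1 := H_zero 1 le_rfl
  have h2 : Tendsto (fun k => ((Sh (1 + 1) k : ℚ) : ℂ)) atTop (𝓝 ((-(Real.pi ^ 2 / 12) : ℝ) : ℂ)) := by
    have h3 := (hasSum_alt.tendsto_sum_nat).comp (tendsto_add_atTop_nat 1)
    have h4 : Tendsto (fun k => ((Sh (1 + 1) k : ℚ) : ℝ)) atTop (𝓝 (-(Real.pi ^ 2 / 12))) := by
      refine h3.congr fun k => ?_
      simp only [Function.comp]
      unfold Sh
      push_cast
      rw [Finset.sum_range_eq_add_Ico _ (by omega)]
      have e : Finset.Ico 1 (k + 1) = Finset.Icc 1 k := by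
        ext x
        simp only [Finset.mem_Ico, Finset.mem_Icc]
        omega
      rw [e]
      simp
    have h5 := (Complex.continuous_ofReal.tendsto _).comp h4
    refine h5.congr fun k => ?_
    simp
  have h6 := tendsto_nhds_unique h1 h2
  rw [← neg_neg (H 1 0), h6]
  push_cast
  ring

/-! ### the two kinds of functions -/

lemma ker_eq (α β : ℚ) (y : ℝ) : Pool.Agent.LP.ker α β y = (α : ℂ) * (kap y : ℂ) + (β : ℂ) * (-Complex.I * (kap' y : ℂ)) := by
  unfold Pool.Agent.LP.ker kap kap'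
  push_cast
  ring

lemma aeval_deriv (q : ℚ[X]) (y : ℝ) : HasDerivAt (fun y : ℝ => aeval (zl y) q)
    (Complex.I * aeval (zl y) (derivative q)) y := by
  have h1 : HasDerivAt zl Complex.I y := by
    have h0 : HasDerivAt (fun y : ℝ => (y : ℂ)) 1 y := Complex.ofRealCLM.hasDerivAt (x := y)
    exact ((h0.mul_const Complex.I).const_add (1 / 2 : ℂ)).congr_deriv (by simp)
  have h2 : HasDerivAt (fun z : ℂ => aeval z q) (aeval (zl y) (derivative q)) (zl y) := by
    have h3 := (q.map (algebraMap ℚ ℂ)).hasDerivAt (zl y)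
    have e1 : (fun z : ℂ => (q.map (algebraMap ℚ ℂ)).eval z) = fun z : ℂ => aeval z q := by
      funext z
      rw [eval_map_algebraMap]
    rw [e1] at h3
    refine h3.congr_deriv ?_
    rw [derivative_map, eval_map_algebraMap]
  have h3 := HasDerivAt.scomp y h2 h1
  exact h3

lemma poly_ker_int (q : ℚ[X]) (α β : ℚ) : Integrable (fun y : ℝ => aeval (zl y) q * Pool.Agent.LP.ker α β y) := by
  obtain ⟨C, _, hC⟩ := aeval_bd q
  have h1 := ((integrable_kap (aeval_cont q) C _ hC).const_mul (α : ℂ)).add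
    ((integrable_kap' (aeval_cont q) C _ hC).const_mul ((β : ℂ) * -Complex.I))
  refine h1.congr (Eventually.of_forall fun y => ?_)
  simp only [Pi.add_apply]
  rw [ker_eq]
  ring

lemma poly_ker (q : ℚ[X]) (α β : ℚ) : ∫ y : ℝ, aeval (zl y) q * Pool.Agent.LP.ker α β y =
    ((-α * AB q + β * AB (derivative q) : ℚ) : ℂ) := by
  obtain ⟨C, _, hC⟩ := aeval_bd q
  obtain ⟨C', hC'0, hC'⟩ := aeval_bd (derivative q)
  have h1 : ∀ y : ℝ, aeval (zl y) q * Pool.Agent.LP.ker α β y = (α : ℂ) * (aeval (zl y) q * (kap y : ℂ)) +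
      ((β : ℂ) * -Complex.I) * (aeval (zl y) q * (kap' y : ℂ)) := by
    intro y
    rw [ker_eq]
    ring
  rw [integral_congr_ae (Eventually.of_forall h1), integral_add
    ((integrable_kap (aeval_cont q) C _ hC).const_mul (α : ℂ))
    ((integrable_kap' (aeval_cont q) C _ hC).const_mul ((β : ℂ) * -Complex.I)),
    integral_const_mul, integral_const_mul,
    by_parts (aeval_deriv q) (continuous_const.mul (aeval_cont _)) C _ hC C' _
      (fun y => by rw [norm_mul, Complex.norm_I, one_mul]; exact hC' y)]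
  have h2 : ∀ y : ℝ, Complex.I * aeval (zl y) (derivative q) * (kap y : ℂ) =
      Complex.I * (aeval (zl y) (derivative q) * (kap y : ℂ)) := fun y => by ring
  rw [integral_congr_ae (Eventually.of_forall h2), integral_const_mul]
  have h3 := J_poly q
  have h4 := J_poly (derivative q)
  unfold J at h3 h4
  rw [h3, h4]
  push_cast
  linear_combination (-(β : ℂ) * ((AB (derivative q) : ℚ) : ℂ)) * Complex.I_mul_I

lemma rat_ker_int (k : ℕ) (α β : ℚ) : Integrable (fun y : ℝ => (zl y + k)⁻¹ * Pool.Agent.LP.ker α β y) := by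
  have hc := H_F_cont 0 k
  have hb := H_F_bd 0 k
  simp only [zero_add, pow_one] at hc
  have h1 := ((integrable_kap hc _ 0 (by simpa using hb)).const_mul (α : ℂ)).add
    ((integrable_kap' hc _ 0 (by simpa using hb)).const_mul ((β : ℂ) * -Complex.I))
  refine h1.congr (Eventually.of_forall fun y => ?_)
  simp only [Pi.add_apply]
  rw [ker_eq]
  ring

lemma rat_ker (k : ℕ) (α β : ℚ) : ∫ y : ℝ, (zl y + k)⁻¹ * Pool.Agent.LP.ker α β y = α * H 0 k + β * H 1 k := by
  have hc := H_F_cont 0 k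
  have hb := H_F_bd 0 k
  simp only [zero_add, pow_one] at hc hb
  have h1 : ∀ y : ℝ, (zl y + k)⁻¹ * Pool.Agent.LP.ker α β y = (α : ℂ) * ((zl y + k)⁻¹ * (kap y : ℂ)) +
      ((β : ℂ) * -Complex.I) * ((zl y + k)⁻¹ * (kap' y : ℂ)) := by
    intro y
    rw [ker_eq]
    ring
  have hd : ∀ y : ℝ, HasDerivAt (fun y : ℝ => (zl y + k)⁻¹) (-Complex.I * ((zl y + k) ^ (1 + 1))⁻¹) y := by
    intro y
    have h0 : HasDerivAt (fun y : ℝ => (y : ℂ)) 1 y := Complex.ofRealCLM.hasDerivAt (x := y)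
    have h2 : HasDerivAt (fun y : ℝ => zl y + k) Complex.I y := by
      exact (((h0.mul_const Complex.I).const_add (1 / 2 : ℂ)).add_const (k : ℂ)).congr_deriv (by simp)
    have h3 := h2.fun_inv (zl_k_ne y k)
    refine h3.congr_deriv ?_
    rw [div_eq_mul_inv]
  have hc1 := H_F_cont 1 k
  have hb1 := H_F_bd 1 k
  rw [integral_congr_ae (Eventually.of_forall h1), integral_add
    ((integrable_kap hc _ 0 hb).const_mul (α : ℂ))
    ((integrable_kap' hc _ 0 hb).const_mul ((β : ℂ) * -Complex.I)),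
    integral_const_mul, integral_const_mul,
    by_parts hd (continuous_const.mul hc1) _ 0 hb _ 0
      (fun y => by rw [norm_mul, norm_neg, Complex.norm_I, one_mul]; exact hb1 y)]
  have h2 : ∀ y : ℝ, -Complex.I * ((zl y + k) ^ (1 + 1))⁻¹ * (kap y : ℂ) =
      -Complex.I * (((zl y + k) ^ (1 + 1))⁻¹ * (kap y : ℂ)) := fun y => by ring
  rw [integral_congr_ae (Eventually.of_forall h2), integral_const_mul]
  unfold H J
  simp only [zero_add, pow_one]
  linear_combination (-(β : ℂ) * ∫ y : ℝ, ((zl y + k) ^ (1 + 1))⁻¹ * (kap y : ℂ)) * Complex.I_mul_I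

lemma H_val (k : ℕ) (α β γ : ℚ)
    (h : (α : ℝ) * Real.log 2 + (β : ℝ) * (Real.pi ^ 2 / 12) = (γ : ℝ)) :
    α * H 0 k + β * H 1 k = (((-1 : ℚ) ^ k * (γ + α * Sh 1 k + β * Sh 2 k) : ℚ) : ℂ) := by
  have h0 := H_Sh 0 (by norm_num) k
  have h1 := H_Sh 1 le_rfl k
  rw [H00] at h0
  rw [H10] at h1
  have hs : (-1 : ℂ) ^ k * (-1) ^ k = 1 := by
    rw [← mul_pow]
    simp
  have h2 : (α : ℂ) * ((Real.log 2 : ℝ) : ℂ) + (β : ℂ) * ((Real.pi ^ 2 / 12 : ℝ) : ℂ) = (γ : ℂ) := by
    have := congrArg (fun x : ℝ => (x : ℂ)) h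
    push_cast at this ⊢
    exact this
  simp only [zero_add] at h0
  have h3 : (1 + 1 : ℕ) = 2 := rfl
  rw [h3] at h1
  push_cast
  linear_combination (-(α * H 0 k + β * H 1 k)) * hs + (-1) ^ k * (α * h0 + β * h1 + h2)

/-! ### partial fractions -/

lemma Pn_natDegree (a b : ℕ) : (Pn a b).natDegree = (Finset.Icc a b).card := by
  unfold Pn
  rw [natDegree_prod_of_monic _ _ fun k _ => monic_X_add_C _,
    Finset.sum_congr rfl fun k _ => natDegree_X_add_C _]
  simp

lemma Pn_degree (a b : ℕ) : (Pn a b).degree = (Finset.Icc a b).card := by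
  rw [degree_eq_natDegree (Pn_monic a b).ne_zero, Pn_natDegree]

lemma pf_rem (a b : ℕ) (f : ℚ[X]) : (An a * f) %ₘ Pn a b =
    ∑ k ∈ Finset.Icc a b, C (rs a b f k) * ∏ j ∈ (Finset.Icc a b).erase k, (X + C (j : ℚ)) := by
  refine eq_of_degrees_lt_of_eval_index_eq (Finset.Icc a b) (v := fun k : ℕ => -(k : ℚ)) ?_ ?_ ?_ ?_
  · intro x _ y _ hxy
    simpa using hxy
  · rw [← Pn_degree]
    exact degree_modByMonic_lt _ (Pn_monic a b)
  · rw [← mem_degreeLT]
    refine Submodule.sum_mem _ fun k hk => ?_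
    rw [mem_degreeLT]
    rw [← smul_eq_C_mul]
    refine (degree_smul_le _ _).trans_lt ?_
    have hm : (∏ j ∈ (Finset.Icc a b).erase k, (X + C (j : ℚ))).Monic :=
      monic_prod_of_monic _ _ fun k _ => monic_X_add_C _
    rw [degree_eq_natDegree hm.ne_zero, natDegree_prod_of_monic _ _ fun k _ => monic_X_add_C _]
    simp only [natDegree_X_add_C, Finset.sum_const, smul_eq_mul, mul_one]
    rw [Finset.card_erase_of_mem hk]
    have := Finset.card_pos.2 ⟨k, hk⟩
    exact_mod_cast Nat.sub_lt this one_pos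
  · intro k hk
    have h0 := modByMonic_add_div (An a * f) (Pn a b)
    have h1 := congrArg (eval (-(k : ℚ))) h0
    have h2 : (Pn a b).eval (-(k : ℚ)) = 0 := by
      unfold Pn
      rw [eval_prod]
      exact Finset.prod_eq_zero hk (by simp)
    rw [eval_add, eval_mul, h2, zero_mul, add_zero] at h1
    rw [h1, eval_finsetSum, Finset.sum_eq_single k]
    · conv_rhs => rw [eval_mul, eval_C, eval_prod]
      unfold rs
      have h3 : ∏ j ∈ (Finset.Icc a b).erase k, eval (-(k : ℚ)) (X + C (j : ℚ)) =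
          ∏ j ∈ (Finset.Icc a b).erase k, ((j : ℚ) - k) := by
        refine Finset.prod_congr rfl fun j _ => ?_
        rw [eval_add, eval_X, eval_C]
        ring
      have h4 : ∏ j ∈ (Finset.Icc a b).erase k, ((j : ℚ) - k) ≠ 0 := by
        refine Finset.prod_ne_zero_iff.2 fun j hj => ?_
        rw [sub_ne_zero]
        intro h
        exact (Finset.mem_erase.1 hj).1 (by exact_mod_cast h)
      rw [h3, div_mul_cancel₀ _ h4]
    · intro j _ hjk
      rw [eval_mul, eval_prod, Finset.prod_eq_zero (Finset.mem_erase.2 ⟨hjk.symm, hk⟩) (by simp), mul_zero]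
    · intro h
      exact absurd hk h

lemma Pn_aeval (a b : ℕ) (z : ℂ) : aeval z (Pn a b) = ∏ k ∈ Finset.Icc a b, (z + k) := by
  unfold Pn
  rw [map_prod]
  refine Finset.prod_congr rfl fun k _ => ?_
  simp

lemma pf (a b : ℕ) (f : ℚ[X]) (z : ℂ) (hz : ∀ k : ℕ, z + k ≠ 0) :
    aeval z f * (aeval z (An a) / aeval z (Pn a b)) =
      aeval z (pp a b f) + ∑ k ∈ Finset.Icc a b, ((rs a b f k : ℚ) : ℂ) * (z + k)⁻¹ := by
  have hP : aeval z (Pn a b) ≠ 0 := by
    rw [Pn_aeval]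
    exact Finset.prod_ne_zero_iff.2 fun k _ => hz k
  have h0 := congrArg (aeval z) (modByMonic_add_div (An a * f) (Pn a b))
  rw [map_add, map_mul, map_mul, pf_rem] at h0
  have h1 : ∀ k ∈ Finset.Icc a b, aeval z (C (rs a b f k) * ∏ j ∈ (Finset.Icc a b).erase k, (X + C (j : ℚ))) =
      aeval z (Pn a b) * (((rs a b f k : ℚ) : ℂ) * (z + k)⁻¹) := by
    intro k hk
    rw [map_mul, aeval_C, map_prod, Pn_aeval, ← Finset.mul_prod_erase _ _ hk]
    have h2 : ∏ j ∈ (Finset.Icc a b).erase k, aeval z (X + C (j : ℚ)) =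
        ∏ j ∈ (Finset.Icc a b).erase k, (z + j) := by
      refine Finset.prod_congr rfl fun j _ => ?_
      simp
    rw [h2]
    have h3 := hz k
    simp only [eq_ratCast]
    field_simp
  rw [map_sum, Finset.sum_congr rfl h1, ← Finset.mul_sum] at h0
  unfold pp
  rw [mul_div_assoc', div_eq_iff hP]
  linear_combination -h0

/-! ### results -/

theorem A_int (a b : ℕ) (α β : ℚ) (f : ℚ[X]) :
    Integrable (fun y : ℝ => aeval (zl y) f * Gw a b α β y) := by
  have h1 := (poly_ker_int (pp a b f) α β).add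
    (integrable_finsetSum (Finset.Icc a b) fun k _ => (rat_ker_int k α β).const_mul ((rs a b f k : ℚ) : ℂ))
  refine h1.congr (Eventually.of_forall fun y => ?_)
  simp only [Pi.add_apply]
  unfold Gw
  rw [← mul_assoc, pf a b f (zl y) (zl_k_ne y), add_mul, Finset.sum_mul]
  congr 1
  refine Finset.sum_congr rfl fun k _ => ?_
  ring

theorem A_line (a b : ℕ) (_hab : a ≤ b) (α β γ : ℚ)
    (h : (α : ℝ) * Real.log 2 + (β : ℝ) * (Real.pi ^ 2 / 12) = (γ : ℝ)) (f : ℚ[X]) :
    ((L a b α β γ f : ℚ) : ℂ) = ∫ y : ℝ, aeval (zl y) f * Gw a b α β y := by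
  have h1 : ∀ y : ℝ, aeval (zl y) f * Gw a b α β y = aeval (zl y) (pp a b f) * Pool.Agent.LP.ker α β y +
      ∑ k ∈ Finset.Icc a b, ((rs a b f k : ℚ) : ℂ) * ((zl y + k)⁻¹ * Pool.Agent.LP.ker α β y) := by
    intro y
    unfold Gw
    rw [← mul_assoc, pf a b f (zl y) (zl_k_ne y), add_mul, Finset.sum_mul]
    congr 1
    refine Finset.sum_congr rfl fun k _ => ?_
    ring
  rw [integral_congr_ae (Eventually.of_forall h1), integral_add (poly_ker_int (pp a b f) α β)
    (integrable_finsetSum (Finset.Icc a b) fun k _ => (rat_ker_int k α β).const_mul ((rs a b f k : ℚ) : ℂ)),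
    integral_finsetSum _ fun k _ => (rat_ker_int k α β).const_mul ((rs a b f k : ℚ) : ℂ), poly_ker]
  have h2 : ∀ k ∈ Finset.Icc a b, ∫ y : ℝ, ((rs a b f k : ℚ) : ℂ) * ((zl y + k)⁻¹ * Pool.Agent.LP.ker α β y) =
      (((-1 : ℚ) ^ k * rs a b f k * (γ + α * Sh 1 k + β * Sh 2 k) : ℚ) : ℂ) := by
    intro k _
    rw [integral_const_mul, rat_ker, H_val k α β γ h]
    push_cast
    ring
  rw [Finset.sum_congr rfl h2]
  change ((Lf a b α β γ f : ℚ) : ℂ) = _
  unfold Lf
  push_cast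
  ring

end

end Pool.Agent.H757R2.LP
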