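import Pool.Agent.H422R2.LP.Defs

set_option autoImplicit false

/-! Line integral representation of `L`, part 1: the kernel `1/(2 cosh πy)`. -/

open Polynomial Filter Topology MeasureTheory

namespace Pool.Agent.H757R2.LP

open Pool.Agent.LP

noncomputable section

/-- the kernel -/
def kap (y : ℝ) : ℝ := 1 / (2 * Real.cosh (Real.pi * y))

lemma kap_pos (y : ℝ) : 0 < kap y := by
  have := Real.cosh_pos (Real.pi * y)
  unfold kap
  positivity

lemma kap_cont : Continuous kap := by
  unfold kap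
  refine Continuous.div (by fun_prop) ?_ ?_
  · exact continuous_const.mul (Real.continuous_cosh.comp (by fun_prop))
  · intro y
    have := Real.cosh_pos (Real.pi * y)
    positivity

/-- `1/cosh(πy)` decays faster than any power -/
lemma kap_le (n : ℕ) (y : ℝ) :
    (1 + |y|) ^ n * kap y ≤ Real.exp 1 * ((n + 2).factorial : ℝ) * (1 + y ^ 2)⁻¹ := by
  have hc : Real.exp |y| / 2 ≤ Real.cosh (Real.pi * y) := by
    rw [← Real.cosh_abs, abs_mul, abs_of_pos Real.pi_pos, Real.cosh_eq]
    have h1 : |y| ≤ Real.pi * |y| := by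
      have := Real.pi_gt_three
      nlinarith [abs_nonneg y]
    have h2 := Real.exp_le_exp.2 h1
    have h3 := Real.exp_pos (-(Real.pi * |y|))
    linarith
  have h0 : 0 ≤ 1 + |y| := by positivity
  have h4 := Real.pow_div_factorial_le_exp (1 + |y|) h0 (n + 2)
  rw [Real.exp_add] at h4
  have hf : (0 : ℝ) < ((n + 2).factorial : ℝ) := by positivity
  rw [div_le_iff₀ hf] at h4
  have hcp := Real.cosh_pos (Real.pi * y)
  have h5 : 1 + y ^ 2 ≤ (1 + |y|) ^ 2 := by
    rw [← sq_abs y]
    nlinarith [abs_nonneg y]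
  unfold kap
  rw [mul_one_div, div_le_iff₀ (by positivity), mul_assoc, mul_comm ((1 + y ^ 2)⁻¹) _, ← mul_assoc,
    ← div_eq_mul_inv, le_div_iff₀ (by positivity)]
  calc (1 + |y|) ^ n * (1 + y ^ 2) ≤ (1 + |y|) ^ n * (1 + |y|) ^ 2 :=
        mul_le_mul_of_nonneg_left h5 (by positivity)
    _ = (1 + |y|) ^ (n + 2) := by ring
    _ ≤ Real.exp 1 * Real.exp |y| * ((n + 2).factorial : ℝ) := h4
    _ ≤ Real.exp 1 * (2 * Real.cosh (Real.pi * y)) * ((n + 2).factorial : ℝ) := by
        gcongr
        linarith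
    _ = _ := by ring

lemma integrable_kap {F : ℝ → ℂ} (hF : Continuous F) (C : ℝ) (n : ℕ)
    (h : ∀ y, ‖F y‖ ≤ C * (1 + |y|) ^ n) : Integrable (fun y : ℝ => F y * (kap y : ℂ)) := by
  have hC : 0 ≤ C := by
    have := h 0
    simp at this
    exact (norm_nonneg _).trans this
  have hi : Integrable (fun y : ℝ => C * (Real.exp 1 * ((n + 2).factorial : ℝ)) * (1 + y ^ 2)⁻¹) :=
    integrable_inv_one_add_sq.const_mul _
  refine hi.mono' (hF.mul (Complex.continuous_ofReal.comp kap_cont)).aestronglyMeasurable ?_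
  refine Eventually.of_forall fun y => ?_
  rw [norm_mul, Complex.norm_real, Real.norm_of_nonneg (kap_pos y).le]
  calc ‖F y‖ * kap y ≤ C * (1 + |y|) ^ n * kap y :=
        mul_le_mul_of_nonneg_right (h y) (kap_pos y).le
    _ = C * ((1 + |y|) ^ n * kap y) := by ring
    _ ≤ C * (Real.exp 1 * ((n + 2).factorial : ℝ) * (1 + y ^ 2)⁻¹) :=
        mul_le_mul_of_nonneg_left (kap_le n y) hC
    _ = _ := by ring

/-- derivative of the kernel -/
def kap' (y : ℝ) : ℝ := -(Real.pi / 2) * (Real.sinh (Real.pi * y) / Real.cosh (Real.pi * y) ^ 2)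

lemma hasDerivAt_kap (y : ℝ) : HasDerivAt kap (kap' y) y := by
  have h1 : HasDerivAt (fun y : ℝ => Real.pi * y) Real.pi y := by
    simpa using (hasDerivAt_id y).const_mul Real.pi
  have h2 : HasDerivAt (fun y : ℝ => 2 * Real.cosh (Real.pi * y))
      (2 * (Real.sinh (Real.pi * y) * Real.pi)) y :=
    ((Real.hasDerivAt_cosh _).comp y h1).const_mul 2
  have hc := Real.cosh_pos (Real.pi * y)
  have h3 := h2.inv (by positivity)
  have h4 : kap = fun y : ℝ => (2 * Real.cosh (Real.pi * y))⁻¹ := by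
    funext y
    unfold kap
    rw [one_div]
  rw [h4]
  refine h3.congr_deriv ?_
  unfold kap'
  field_simp

lemma kap'_cont : Continuous kap' := by
  unfold kap'
  refine continuous_const.mul (Continuous.div ?_ ?_ ?_)
  · exact Real.continuous_sinh.comp (by fun_prop)
  · exact (Real.continuous_cosh.comp (by fun_prop)).pow 2
  · intro y
    have := Real.cosh_pos (Real.pi * y)
    positivity

lemma kap'_le (y : ℝ) : |kap' y| ≤ Real.pi * kap y := by
  have hc := Real.cosh_pos (Real.pi * y)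
  have hs : |Real.sinh (Real.pi * y)| ≤ Real.cosh (Real.pi * y) := by
    rw [abs_le]
    have h1 := Real.cosh_sub_sinh (Real.pi * y)
    have h2 := Real.cosh_add_sinh (Real.pi * y)
    have h3 := Real.exp_pos (-(Real.pi * y))
    have h4 := Real.exp_pos (Real.pi * y)
    constructor <;> linarith
  unfold kap' kap
  rw [abs_mul, abs_neg, abs_of_pos (by positivity : 0 < Real.pi / 2), abs_div,
    abs_of_pos (by positivity : 0 < Real.cosh (Real.pi * y) ^ 2)]
  have h5 : |Real.sinh (Real.pi * y)| / Real.cosh (Real.pi * y) ^ 2 ≤ 1 / Real.cosh (Real.pi * y) := by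
    rw [div_le_div_iff₀ (by positivity) hc, one_mul, pow_two]
    exact mul_le_mul_of_nonneg_right hs hc.le
  calc Real.pi / 2 * (|Real.sinh (Real.pi * y)| / Real.cosh (Real.pi * y) ^ 2) ≤
        Real.pi / 2 * (1 / Real.cosh (Real.pi * y)) := by gcongr
    _ = _ := by field_simp

lemma integrable_kap' {F : ℝ → ℂ} (hF : Continuous F) (C : ℝ) (n : ℕ)
    (h : ∀ y, ‖F y‖ ≤ C * (1 + |y|) ^ n) : Integrable (fun y : ℝ => F y * (kap' y : ℂ)) := by
  have hi := (integrable_kap hF C n h).norm.const_mul Real.pi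
  refine hi.mono' (hF.mul (Complex.continuous_ofReal.comp kap'_cont)).aestronglyMeasurable ?_
  refine Eventually.of_forall fun y => ?_
  rw [norm_mul, norm_mul, Complex.norm_real, Complex.norm_real, Real.norm_of_nonneg (kap_pos y).le,
    Real.norm_eq_abs]
  calc ‖F y‖ * |kap' y| ≤ ‖F y‖ * (Real.pi * kap y) :=
        mul_le_mul_of_nonneg_left (kap'_le y) (norm_nonneg _)
    _ = _ := by ring

/-- partial integration -/
lemma by_parts {F F' : ℝ → ℂ} (hF : ∀ y, HasDerivAt F (F' y) y) (hF'c : Continuous F') (C : ℝ) (n : ℕ)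
    (h : ∀ y, ‖F y‖ ≤ C * (1 + |y|) ^ n) (C' : ℝ) (n' : ℕ)
    (h' : ∀ y, ‖F' y‖ ≤ C' * (1 + |y|) ^ n') :
    ∫ y : ℝ, F y * (kap' y : ℂ) = -∫ y : ℝ, F' y * (kap y : ℂ) := by
  have hc : Continuous F := continuous_iff_continuousAt.2 fun y => (hF y).continuousAt
  exact integral_mul_deriv_eq_deriv_mul_of_integrable (fun y _ => hF y)
    (fun y _ => (hasDerivAt_kap y).ofReal_comp) (integrable_kap' hc C n h)
    (integrable_kap hF'c C' n' h') (integrable_kap hc C n h)

/-! ### Fourier transform of the kernel -/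

lemma image_sig : (fun y : ℝ => (1 + Real.exp (-(2 * Real.pi * y)))⁻¹) '' Set.univ = Set.Ioo 0 1 := by
  ext x
  simp only [Set.image_univ, Set.mem_range, Set.mem_Ioo]
  constructor
  · rintro ⟨y, rfl⟩
    have h1 := Real.exp_pos (-(2 * Real.pi * y))
    exact ⟨by positivity, by rw [inv_lt_one₀ (by positivity)]; linarith⟩
  · rintro ⟨h0, h1⟩
    have h2 : 0 < 1 / x - 1 := by
      rw [sub_pos, lt_div_iff₀ h0]
      linarith
    refine ⟨-(Real.log (1 / x - 1)) / (2 * Real.pi), ?_⟩
    have h3 : -(2 * Real.pi * (-(Real.log (1 / x - 1)) / (2 * Real.pi))) = Real.log (1 / x - 1) := by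
      field_simp
    rw [h3, Real.exp_log h2]
    field_simp
    ring

lemma sech_ft (u : ℂ) (h0 : 0 < u.re) (h1 : u.re < 1) :
    ∫ y : ℝ, Complex.exp (2 * Real.pi * y * (u - 1 / 2)) * (kap y : ℂ) =
      1 / (2 * Complex.sin (Real.pi * u)) := by
  set f : ℝ → ℝ := fun y => (1 + Real.exp (-(2 * Real.pi * y)))⁻¹ with hf
  set f' : ℝ → ℝ := fun y => 2 * Real.pi * Real.exp (-(2 * Real.pi * y)) /
    (1 + Real.exp (-(2 * Real.pi * y))) ^ 2 with hf'
  have hE : ∀ y : ℝ, 0 < Real.exp (-(2 * Real.pi * y)) := fun y => Real.exp_pos _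
  have hd : ∀ y : ℝ, HasDerivAt f (f' y) y := by
    intro y
    have h2 : HasDerivAt (fun y : ℝ => -(2 * Real.pi * y)) (-(2 * Real.pi)) y := by
      simpa using ((hasDerivAt_id y).const_mul (2 * Real.pi)).fun_neg
    have h3 := ((h2.exp).const_add 1).inv (by have := hE y; positivity)
    refine h3.congr_deriv ?_
    simp only [hf']
    ring
  have hinj : Set.InjOn f Set.univ := by
    intro x _ y _ hxy
    simp only [hf] at hxy
    have h4 := inv_injective hxy
    have h5 : Real.exp (-(2 * Real.pi * x)) = Real.exp (-(2 * Real.pi * y)) := by linarith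
    have h6 := Real.exp_injective h5
    have := Real.pi_pos
    nlinarith
  have key := integral_image_eq_integral_abs_deriv_smul MeasurableSet.univ
    (fun y _ => (hd y).hasDerivWithinAt) hinj
    (fun x : ℝ => (x : ℂ) ^ (u - 1) * (1 - (x : ℂ)) ^ ((1 - u) - 1))
  rw [image_sig, setIntegral_univ] at key
  have hb : ∫ x in Set.Ioo (0:ℝ) 1, (x : ℂ) ^ (u - 1) * (1 - (x : ℂ)) ^ ((1 - u) - 1) =
      Real.pi / Complex.sin (Real.pi * u) := by
    have h2 := Complex.Gamma_mul_Gamma_eq_betaIntegral (s := u) (t := 1 - u) h0 (by simpa using h1)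
    rw [Complex.Gamma_mul_Gamma_one_sub, show u + (1 - u) = 1 by ring, Complex.Gamma_one, one_mul] at h2
    rw [h2]
    unfold Complex.betaIntegral
    rw [intervalIntegral.integral_of_le zero_le_one, integral_Ioc_eq_integral_Ioo]
  rw [hb] at key
  have hint : ∀ y : ℝ, |f' y| • (((f y : ℝ) : ℂ) ^ (u - 1) * (1 - ((f y : ℝ) : ℂ)) ^ ((1 - u) - 1)) =
      (2 * Real.pi : ℂ) * (Complex.exp (2 * Real.pi * y * (u - 1 / 2)) * (kap y : ℂ)) := by
    intro y
    have hEy := hE y
    set l : ℝ := Real.log (1 + Real.exp (-(2 * Real.pi * y))) with hl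
    have hexpl : Real.exp l = 1 + Real.exp (-(2 * Real.pi * y)) := Real.exp_log (by positivity)
    have e1 : f y = Real.exp (-l) := by
      rw [Real.exp_neg, hexpl]
    have e2 : 1 - f y = Real.exp (-(2 * Real.pi * y) - l) := by
      rw [Real.exp_sub, hexpl]
      simp only [hf]
      field_simp
      ring
    have e3 : |f' y| = 2 * Real.pi * Real.exp (-(2 * Real.pi * y) - 2 * l) := by
      have h5 : 0 < f' y := by
        simp only [hf']
        have := Real.pi_pos
        positivity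
      rw [abs_of_pos h5, show -(2 * Real.pi * y) - 2 * l = -(2 * Real.pi * y) - l - l by ring,
        Real.exp_sub, Real.exp_sub, hexpl]
      simp only [hf']
      field_simp
    have e4 : kap y = Real.exp (-(Real.pi * y) - l) := by
      unfold kap
      rw [Real.exp_sub, hexpl, Real.cosh_eq, show -(2 * Real.pi * y) = -(Real.pi * y) + -(Real.pi * y) by ring,
        Real.exp_add]
      have h6 : Real.exp (Real.pi * y) * Real.exp (-(Real.pi * y)) = 1 := by
        rw [← Real.exp_add]
        simp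
      have h7 := Real.exp_pos (Real.pi * y)
      have h8 := Real.exp_pos (-(Real.pi * y))
      rw [div_eq_div_iff (by positivity) (by positivity)]
      linear_combination (-1 : ℝ) * h6
    have e5 : (1 - ((f y : ℝ) : ℂ)) = ((1 - f y : ℝ) : ℂ) := by push_cast; rfl
    rw [e5, e2, e1, e3, e4]
    have hcp : ∀ (r : ℝ) (w : ℂ), ((Real.exp r : ℝ) : ℂ) ^ w = Complex.exp (r * w) := by
      intro r w
      rw [Complex.cpow_def_of_ne_zero (by exact_mod_cast (Real.exp_pos r).ne'),
        ← Complex.ofReal_log (Real.exp_pos r).le, Real.log_exp]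
    rw [hcp, hcp, Complex.real_smul]
    push_cast
    rw [mul_assoc (2 * (Real.pi : ℂ)), ← Complex.exp_add, ← Complex.exp_add, ← Complex.exp_add]
    congr 2
    ring
  rw [integral_congr_ae (Eventually.of_forall hint), integral_const_mul] at key
  have hpi : (Real.pi : ℂ) ≠ 0 := by exact_mod_cast Real.pi_ne_zero
  have hs : Complex.sin (Real.pi * u) ≠ 0 := by
    intro h
    have h2 := Complex.Gamma_mul_Gamma_one_sub u
    rw [h, div_zero] at h2
    rcases mul_eq_zero.1 h2 with h3 | h3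
    · exact Complex.Gamma_ne_zero_of_re_pos h0 h3
    · exact Complex.Gamma_ne_zero_of_re_pos (by simpa using h1) h3
  have h7 : (2 * (Real.pi : ℂ)) ≠ 0 := mul_ne_zero two_ne_zero hpi
  apply mul_left_cancel₀ h7
  rw [← key]
  field_simp

/-- real form: `∫ e^{(1/2+iy) w} κ(y) dy = 1/(1+e^{-w})` -/
lemma J_exp (w : ℝ) :
    ∫ y : ℝ, Complex.exp (zl y * w) * (kap y : ℂ) = ((1 / (1 + Real.exp (-w)) : ℝ) : ℂ) := by
  have hre : ∀ r : ℝ, (1 / 2 + (r : ℂ) * Complex.I).re = 1 / 2 := by
    intro r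
    simp
  have h := sech_ft (1 / 2 + (w / (2 * Real.pi) : ℝ) * Complex.I) (by rw [hre]; norm_num) (by
    rw [hre]; norm_num)
  have hpi : (Real.pi : ℂ) ≠ 0 := by exact_mod_cast Real.pi_ne_zero
  have h1 : ∀ y : ℝ, Complex.exp (zl y * w) * (kap y : ℂ) = Complex.exp (w / 2) *
      (Complex.exp (2 * Real.pi * y * ((1 / 2 + (w / (2 * Real.pi) : ℝ) * Complex.I) - 1 / 2)) *
        (kap y : ℂ)) := by
    intro y
    rw [← mul_assoc, ← Complex.exp_add]
    congr 2
    unfold zl
    push_cast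
    field_simp
    ring
  rw [integral_congr_ae (Eventually.of_forall h1), integral_const_mul, h]
  have h2 : Complex.sin (Real.pi * (1 / 2 + (w / (2 * Real.pi) : ℝ) * Complex.I)) =
      ((Real.cosh (w / 2) : ℝ) : ℂ) := by
    have h3 : (Real.pi : ℂ) * (1 / 2 + (w / (2 * Real.pi) : ℝ) * Complex.I) =
        (((w / 2 : ℝ) : ℂ) * Complex.I) + Real.pi / 2 := by
      push_cast
      field_simp
      ring
    rw [h3, Complex.sin_add_pi_div_two, Complex.cos_mul_I, Complex.ofReal_cosh]
  rw [h2, show ((w : ℂ) / 2) = ((w / 2 : ℝ) : ℂ) by push_cast; rfl, ← Complex.ofReal_exp]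
  norm_cast
  rw [Real.cosh_eq]
  have h4 := Real.exp_pos (w / 2)
  have h5 := Real.exp_pos (-(w / 2))
  have h6 : Real.exp (-w) = Real.exp (-(w / 2)) * Real.exp (-(w / 2)) := by
    rw [← Real.exp_add]
    congr 1
    ring
  have h7 : Real.exp (w / 2) * Real.exp (-(w / 2)) = 1 := by
    rw [← Real.exp_add]
    simp
  rw [h6, mul_one_div, div_eq_div_iff (by positivity) (by positivity)]
  linear_combination Real.exp (-(w / 2)) * h7

end

end Pool.Agent.H757R2.LP
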