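import Pool.Agent.H757R2.LP.A1

set_option autoImplicit false

/-! Line integral representation of `L`, part 2: polynomials. -/

open Polynomial Filter Topology MeasureTheory

namespace Pool.Agent.H757R2.LP

open Pool.Agent.LP

noncomputable section

/-- point of the line `Re s = c` -/
def zc (c y : ℝ) : ℂ := (c : ℂ) + y * Complex.I

lemma zc_cont (c : ℝ) : Continuous (zc c) := by
  unfold zc
  fun_prop

lemma zc_norm (c y : ℝ) : ‖zc c y‖ ≤ (1 + |c|) * (1 + |y|) := by
  unfold zc
  refine (norm_add_le _ _).trans ?_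
  rw [Complex.norm_real, norm_mul, Complex.norm_real, Complex.norm_I, mul_one, Real.norm_eq_abs,
    Real.norm_eq_abs]
  nlinarith [abs_nonneg c, abs_nonneg y, mul_nonneg (abs_nonneg c) (abs_nonneg y)]

lemma zc_exp_norm (c y w : ℝ) : ‖Complex.exp (zc c y * w)‖ = Real.exp (c * w) := by
  rw [Complex.norm_exp]
  congr 1
  simp [zc]

/-- `∫ (c+iy)^n e^{(c+iy)w} κ(y) dy` -/
def In (c : ℝ) (n : ℕ) (w : ℝ) : ℂ := ∫ y : ℝ, (zc c y ^ n * Complex.exp (zc c y * w)) * (kap y : ℂ)

lemma In_bd (c : ℝ) (n : ℕ) (w E : ℝ) (hE : Real.exp (c * w) ≤ E) (y : ℝ) :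
    ‖zc c y ^ n * Complex.exp (zc c y * w)‖ ≤ ((1 + |c|) ^ n * E) * (1 + |y|) ^ n := by
  rw [norm_mul, norm_pow, zc_exp_norm]
  have h1 := pow_le_pow_left₀ (norm_nonneg _) (zc_norm c y) n
  have h2 : 0 ≤ (1 + |c|) * (1 + |y|) := by positivity
  calc ‖zc c y‖ ^ n * Real.exp (c * w) ≤ ((1 + |c|) * (1 + |y|)) ^ n * E :=
        mul_le_mul h1 hE (Real.exp_pos _).le (by positivity)
    _ = _ := by rw [mul_pow]; ring

lemma In_cont (c : ℝ) (n : ℕ) (w : ℝ) : Continuous (fun y => zc c y ^ n * Complex.exp (zc c y * w)) :=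
  ((zc_cont c).pow n).mul (Complex.continuous_exp.comp ((zc_cont c).mul continuous_const))

lemma In_int (c : ℝ) (n : ℕ) (w : ℝ) :
    Integrable (fun y : ℝ => (zc c y ^ n * Complex.exp (zc c y * w)) * (kap y : ℂ)) :=
  integrable_kap (In_cont c n w) _ n (In_bd c n w _ le_rfl)

lemma In_deriv (c : ℝ) (n : ℕ) (w : ℝ) : HasDerivAt (In c n) (In c (n + 1) w) w := by
  set E := Real.exp (|c| * (|w| + 1)) with hE
  have hb : Integrable (fun y : ℝ => ((1 + |c|) ^ (n + 1) * E) * ((1 + |y|) ^ (n + 1) * kap y)) := by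
    refine Integrable.const_mul ?_ _
    have h := (integrable_kap (F := fun y : ℝ => (((1 + |y|) ^ (n + 1) : ℝ) : ℂ)) (by fun_prop) 1 (n + 1)
      (fun y => by
        rw [Complex.norm_real, Real.norm_of_nonneg (by positivity), one_mul])).norm
    refine h.congr (Eventually.of_forall fun y => ?_)
    simp only
    rw [norm_mul, Complex.norm_real, Complex.norm_real, Real.norm_of_nonneg (by positivity),
      Real.norm_of_nonneg (kap_pos y).le]
  refine (hasDerivAt_integral_of_dominated_loc_of_deriv_le (s := Metric.ball w 1)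
    (F := fun w y => (zc c y ^ n * Complex.exp (zc c y * (w : ℝ))) * (kap y : ℂ))
    (F' := fun w y => (zc c y ^ (n + 1) * Complex.exp (zc c y * (w : ℝ))) * (kap y : ℂ))
    (Metric.ball_mem_nhds w one_pos) ?_ (In_int c n w) ?_ ?_ hb ?_).2
  · exact Eventually.of_forall fun x =>
      ((In_cont c n x).mul (Complex.continuous_ofReal.comp kap_cont)).aestronglyMeasurable
  · exact ((In_cont c (n + 1) w).mul (Complex.continuous_ofReal.comp kap_cont)).aestronglyMeasurable
  · refine Eventually.of_forall fun y x hx => ?_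
    have h1 : Real.exp (c * x) ≤ E := by
      rw [hE]
      apply Real.exp_le_exp.2
      have h2 : |x| ≤ |w| + 1 := by
        rw [Metric.mem_ball, Real.dist_eq] at hx
        have := abs_sub_abs_le_abs_sub x w
        linarith
      calc c * x ≤ |c * x| := le_abs_self _
        _ = |c| * |x| := abs_mul _ _
        _ ≤ _ := mul_le_mul_of_nonneg_left h2 (abs_nonneg _)
    have h3 := In_bd c (n + 1) x E h1 y
    rw [norm_mul, Complex.norm_real, Real.norm_of_nonneg (kap_pos y).le]
    calc _ ≤ ((1 + |c|) ^ (n + 1) * E) * (1 + |y|) ^ (n + 1) * kap y :=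
          mul_le_mul_of_nonneg_right h3 (kap_pos y).le
      _ = _ := by ring
  · refine Eventually.of_forall fun y x _ => ?_
    have h1 : HasDerivAt (fun w : ℝ => zc c y * (w : ℂ)) (zc c y) x := by
      simpa using (Complex.ofRealCLM.hasDerivAt (x := x)).const_mul (zc c y)
    have h2 := ((h1.cexp).const_mul (zc c y ^ n)).mul_const (kap y : ℂ)
    refine h2.congr_deriv ?_
    ring

lemma In_half (w : ℝ) : In (1 / 2) 0 w = ((1 / (1 + Real.exp (-w)) : ℝ) : ℂ) := by
  rw [← J_exp]
  unfold In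
  refine integral_congr_ae (Eventually.of_forall fun y => ?_)
  simp only [pow_zero, one_mul]
  congr 3
  unfold zc zl
  push_cast
  rfl

lemma In_zero_shift (w : ℝ) : In (3 / 2) 0 w = (Real.exp w : ℝ) * In (1 / 2) 0 w := by
  unfold In
  rw [← integral_const_mul]
  refine integral_congr_ae (Eventually.of_forall fun y => ?_)
  simp only [pow_zero, one_mul]
  rw [← mul_assoc, Complex.ofReal_exp, ← Complex.exp_add]
  congr 2
  unfold zc
  push_cast
  ring

/-- functional equation on exponentials and their derivatives -/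
lemma In_feq (n : ℕ) (w : ℝ) : In (1 / 2) n w + In (3 / 2) n w = ((Real.exp w : ℝ) : ℂ) := by
  induction n generalizing w with
  | zero =>
    rw [In_zero_shift, In_half]
    norm_cast
    have h1 := Real.exp_pos w
    have h2 := Real.exp_pos (-w)
    have h3 : Real.exp w * Real.exp (-w) = 1 := by rw [← Real.exp_add]; simp
    field_simp
    linear_combination (-1 : ℝ) * h3
  | succ n ih =>
    have h1 := (In_deriv (1 / 2) n w).add (In_deriv (3 / 2) n w)
    have h2 : HasDerivAt (fun w : ℝ => ((Real.exp w : ℝ) : ℂ)) ((Real.exp w : ℝ) : ℂ) w :=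
      (Real.hasDerivAt_exp w).ofReal_comp
    have h3 : (In (1 / 2) n + In (3 / 2) n) = fun w : ℝ => ((Real.exp w : ℝ) : ℂ) := by
      funext x
      exact ih x
    rw [h3] at h1
    exact h1.unique h2

/-! ### polynomials -/

/-- the functional `J` -/
def J (F : ℝ → ℂ) : ℂ := ∫ y : ℝ, F y * (kap y : ℂ)

lemma zl_eq (y : ℝ) : zl y = zc (1 / 2) y := by
  unfold zl zc
  push_cast
  rfl

lemma zl_add_one (y : ℝ) : zl y + 1 = zc (3 / 2) y := by
  unfold zl zc
  push_cast
  ring

lemma zl_cont : Continuous zl := by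
  unfold zl
  fun_prop

lemma aeval_cont (q : ℚ[X]) : Continuous (fun y : ℝ => aeval (zl y) q) := by
  have : (fun y : ℝ => aeval (zl y) q) = fun y : ℝ => (q.map (algebraMap ℚ ℂ)).eval (zl y) := by
    funext y
    rw [eval_map_algebraMap]
  rw [this]
  exact (Polynomial.continuous _).comp zl_cont

lemma zl_norm (y : ℝ) : ‖zl y‖ ≤ 1 + |y| := by
  unfold zl
  refine (norm_add_le _ _).trans ?_
  rw [norm_mul, Complex.norm_real, Complex.norm_I, mul_one, Real.norm_eq_abs]
  norm_num

lemma aeval_bd (q : ℚ[X]) : ∃ C : ℝ, 0 ≤ C ∧ ∀ y : ℝ, ‖aeval (zl y) q‖ ≤ C * (1 + |y|) ^ q.natDegree := by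
  refine ⟨∑ i ∈ Finset.range (q.natDegree + 1), |(q.coeff i : ℝ)|,
    Finset.sum_nonneg fun _ _ => abs_nonneg _, fun y => ?_⟩
  rw [Polynomial.aeval_eq_sum_range, Finset.sum_mul]
  refine (norm_sum_le _ _).trans (Finset.sum_le_sum fun i hi => ?_)
  rw [Finset.mem_range] at hi
  have h1 : ‖q.coeff i • zl y ^ i‖ = |(q.coeff i : ℝ)| * ‖zl y‖ ^ i := by
    rw [Rat.smul_def, norm_mul, norm_pow]
    congr 1
    rw [show ((q.coeff i : ℚ) : ℂ) = (((q.coeff i : ℚ) : ℝ) : ℂ) by push_cast; rfl, Complex.norm_real,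
      Real.norm_eq_abs]
  rw [h1]
  refine mul_le_mul_of_nonneg_left ?_ (abs_nonneg _)
  calc ‖zl y‖ ^ i ≤ (1 + |y|) ^ i := pow_le_pow_left₀ (norm_nonneg _) (zl_norm y) i
    _ ≤ (1 + |y|) ^ q.natDegree := pow_le_pow_right₀ (by linarith [abs_nonneg y]) (by omega)

lemma J_poly_int (q : ℚ[X]) : Integrable (fun y : ℝ => aeval (zl y) q * (kap y : ℂ)) := by
  obtain ⟨C, _, hC⟩ := aeval_bd q
  exact integrable_kap (aeval_cont q) C _ hC

lemma J_sum {ι : Type*} (s : Finset ι) (c : ι → ℚ) (q : ι → ℚ[X]) :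
    J (fun y => aeval (zl y) (∑ i ∈ s, C (c i) * q i)) =
      ∑ i ∈ s, (c i : ℂ) * J (fun y => aeval (zl y) (q i)) := by
  unfold J
  have h1 : ∀ y : ℝ, aeval (zl y) (∑ i ∈ s, C (c i) * q i) * (kap y : ℂ) =
      ∑ i ∈ s, (c i : ℂ) * (aeval (zl y) (q i) * (kap y : ℂ)) := by
    intro y
    rw [map_sum, Finset.sum_mul]
    refine Finset.sum_congr rfl fun i _ => ?_
    rw [map_mul, aeval_C]
    simp only [eq_ratCast]
    ring
  simp_rw [h1]
  rw [integral_finsetSum _ fun i _ => (J_poly_int (q i)).const_mul _]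
  refine Finset.sum_congr rfl fun i _ => ?_
  rw [integral_const_mul]

lemma J_X_pow (n : ℕ) : J (fun y => aeval (zl y) (X ^ n : ℚ[X])) = -((AB (X ^ n) : ℚ) : ℂ) := by
  induction n using Nat.strong_induction_on with
  | _ n ih =>
    have h1 : J (fun y => aeval (zl y) (X ^ n : ℚ[X])) +
        J (fun y => aeval (zl y) (((X : ℚ[X]) + 1) ^ n)) = 1 := by
      have h2 := In_feq n 0
      rw [Real.exp_zero, Complex.ofReal_one] at h2
      rw [← h2]
      unfold J In
      congr 1
      · refine integral_congr_ae (Eventually.of_forall fun y => ?_)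
        simp [zl_eq]
      · refine integral_congr_ae (Eventually.of_forall fun y => ?_)
        simp [zl_add_one]
    have h3 : ((X : ℚ[X]) + 1) ^ n = ∑ m ∈ Finset.range (n + 1), C ((n.choose m : ℕ) : ℚ) * X ^ m := by
      rw [add_pow]
      refine Finset.sum_congr rfl fun m _ => ?_
      rw [one_pow, mul_one, mul_comm]
      simp
    have h4 := AB_shift (X ^ n)
    rw [show ((X : ℚ[X]) ^ n).comp (X + 1) = (X + 1) ^ n by simp, h3, map_sum,
      Finset.sum_range_succ] at h4
    rw [h3, J_sum, Finset.sum_range_succ] at h1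
    have h5 : ∀ m ∈ Finset.range n, (((n.choose m : ℕ) : ℚ) : ℂ) *
        J (fun y => aeval (zl y) (X ^ m : ℚ[X])) =
        -((AB (C ((n.choose m : ℕ) : ℚ) * X ^ m) : ℚ) : ℂ) := by
      intro m hm
      rw [Finset.mem_range] at hm
      rw [ih m hm, ← smul_eq_C_mul, map_smul, smul_eq_mul]
      push_cast
      ring
    rw [Finset.sum_congr rfl h5, Finset.sum_neg_distrib] at h1
    simp only [Nat.choose_self, Nat.cast_one, map_one, one_mul, Rat.cast_one, eval_pow, eval_X,
      one_pow] at h1 h4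
    have h6 : ((∑ m ∈ Finset.range n, AB (C ((n.choose m : ℕ) : ℚ) * X ^ m) : ℚ) : ℂ) =
        ∑ m ∈ Finset.range n, ((AB (C ((n.choose m : ℕ) : ℚ) * X ^ m) : ℚ) : ℂ) := by
      push_cast
      rfl
    rw [← h6] at h1
    have h7 : (∑ m ∈ Finset.range n, AB (C ((n.choose m : ℕ) : ℚ) * X ^ m)) = -1 - 2 * AB (X ^ n) := by
      linarith
    rw [h7] at h1
    push_cast at h1
    linear_combination h1 / 2

/-- **polynomials** -/
lemma J_poly (q : ℚ[X]) : J (fun y => aeval (zl y) q) = -((AB q : ℚ) : ℂ) := by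
  have h1 : q = ∑ i ∈ Finset.range (q.natDegree + 1), C (q.coeff i) * X ^ i :=
    q.as_sum_range_C_mul_X_pow
  conv_lhs => rw [h1]
  conv_rhs => rw [h1]
  rw [J_sum, map_sum]
  push_cast
  rw [← Finset.sum_neg_distrib]
  refine Finset.sum_congr rfl fun i _ => ?_
  rw [J_X_pow, ← smul_eq_C_mul, map_smul, smul_eq_mul]
  push_cast
  ring

end

end Pool.Agent.H757R2.LP
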