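import Pool.Agent.H757R2.LP.A2

set_option autoImplicit false

/-! Line integral representation of `L`, part 3: the functions `1/(s+k)^n`. -/

open Polynomial Filter Topology MeasureTheory

namespace Pool.Agent.H757R2.LP

open Pool.Agent.LP

noncomputable section

lemma int_pow_exp (n : ℕ) {b : ℝ} (hb : 0 < b) :
    IntegrableOn (fun u : ℝ => u ^ n * Real.exp (-(b * u))) (Set.Ioi 0) := by
  have h := integrableOn_rpow_mul_exp_neg_mul_rpow (p := 1) (s := (n : ℝ)) (b := b)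
    (by have : (0:ℝ) ≤ n := by positivity
        linarith) one_pos hb
  refine h.congr_fun (fun u _ => ?_) measurableSet_Ioi
  simp only
  rw [Real.rpow_natCast, Real.rpow_one, neg_mul]

lemma norm_lap (n : ℕ) (z : ℂ) (u : ℝ) (hu : 0 ≤ u) :
    ‖(u : ℂ) ^ n * Complex.exp (-(z * u))‖ = u ^ n * Real.exp (-(z.re * u)) := by
  rw [norm_mul, norm_pow, Complex.norm_real, Real.norm_of_nonneg hu, Complex.norm_exp]
  congr 2
  simp

lemma int_lap (n : ℕ) {z : ℂ} (hz : 0 < z.re) :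
    IntegrableOn (fun u : ℝ => (u : ℂ) ^ n * Complex.exp (-(z * u))) (Set.Ioi 0) := by
  refine Integrable.mono' (int_pow_exp n hz) ?_ ?_
  · exact (by fun_prop : Continuous (fun u : ℝ => (u : ℂ) ^ n * Complex.exp (-(z * u)))).aestronglyMeasurable
  · rw [ae_restrict_iff' measurableSet_Ioi]
    refine Eventually.of_forall fun u hu => ?_
    rw [norm_lap n z u (le_of_lt hu)]

lemma lap0 {z : ℂ} (hz : 0 < z.re) :
    ∫ u in Set.Ioi (0:ℝ), (u : ℂ) ^ 0 * Complex.exp (-(z * u)) = (z ^ (0 + 1))⁻¹ := by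
  have hz0 : z ≠ 0 := by
    intro h
    rw [h] at hz
    simp at hz
  have h := integral_exp_mul_complex_Ioi (a := -z) (by simpa using hz) 0
  simp only [pow_zero, one_mul, zero_add, pow_one]
  have e : ∀ u : ℝ, Complex.exp (-(z * u)) = Complex.exp (-z * u) := fun u => by rw [neg_mul]
  simp_rw [e]
  rw [h]
  simp

lemma lap1 {z : ℂ} (hz : 0 < z.re) :
    ∫ u in Set.Ioi (0:ℝ), (u : ℂ) ^ 1 * Complex.exp (-(z * u)) = (z ^ (1 + 1))⁻¹ := by
  have hz0 : z ≠ 0 := by
    intro h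
    rw [h] at hz
    simp at hz
  have hd : ∀ u : ℝ, HasDerivAt (fun u : ℝ => -((u : ℂ) / z + 1 / z ^ 2) * Complex.exp (-(z * u)))
      ((u : ℂ) ^ 1 * Complex.exp (-(z * u))) u := by
    intro u
    have h1 : HasDerivAt (fun u : ℝ => (u : ℂ)) 1 u := Complex.ofRealCLM.hasDerivAt (x := u)
    have h2 : HasDerivAt (fun u : ℝ => -((u : ℂ) / z + 1 / z ^ 2)) (-(1 / z)) u := by
      simpa using ((h1.div_const z).add_const (1 / z ^ 2)).fun_neg
    have h3 : HasDerivAt (fun u : ℝ => -(z * (u : ℂ))) (-z) u := by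
      simpa using (h1.const_mul z).fun_neg
    have h4 := h2.mul h3.cexp
    refine h4.congr_deriv ?_
    field_simp
    ring
  have hf : IntegrableOn (fun u : ℝ => -((u : ℂ) / z + 1 / z ^ 2) * Complex.exp (-(z * u))) (Set.Ioi 0) := by
    have h1 := ((int_lap 1 hz).const_mul (-1 / z)).add ((int_lap 0 hz).const_mul (-1 / z ^ 2))
    refine h1.congr (Eventually.of_forall fun u => ?_)
    simp only [Pi.add_apply, pow_one, pow_zero, one_mul]
    ring
  have ht := tendsto_zero_of_hasDerivAt_of_integrableOn_Ioi (a := 0) (fun x _ => hd x) (int_lap 1 hz) hf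
  have h := integral_Ioi_of_hasDerivAt_of_tendsto' (a := 0) (fun x _ => hd x) (int_lap 1 hz) ht
  rw [h]
  simp

lemma lap (n : ℕ) (hn : n ≤ 1) {z : ℂ} (hz : 0 < z.re) :
    ∫ u in Set.Ioi (0:ℝ), (u : ℂ) ^ n * Complex.exp (-(z * u)) = (z ^ (n + 1))⁻¹ := by
  interval_cases n
  · exact lap0 hz
  · exact lap1 hz

lemma zl_re (y : ℝ) : (zl y).re = 1 / 2 := by
  unfold zl
  simp

lemma zl_k_re (y : ℝ) (k : ℕ) : (zl y + k).re = 1 / 2 + k := by
  rw [Complex.add_re, zl_re]
  simp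

lemma zl_k_ne (y : ℝ) (k : ℕ) : zl y + k ≠ 0 := by
  intro h
  have := congrArg Complex.re h
  rw [zl_k_re] at this
  simp at this
  have : (0:ℝ) ≤ k := by positivity
  linarith

lemma zl_k_norm (y : ℝ) (k : ℕ) : 1 / 2 + (k : ℝ) ≤ ‖zl y + k‖ := by
  rw [← zl_k_re y k]
  exact (le_abs_self _).trans (Complex.abs_re_le_norm _)

/-- `∫ κ(y)/(1/2+iy+k)^{n+1} dy` -/
def H (n k : ℕ) : ℂ := J (fun y => ((zl y + k) ^ (n + 1))⁻¹)

lemma H_F_cont (n k : ℕ) : Continuous (fun y : ℝ => ((zl y + k) ^ (n + 1))⁻¹) :=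
  ((zl_cont.add continuous_const).pow _).inv₀ fun y => pow_ne_zero _ (zl_k_ne y k)

lemma H_F_bd (n k : ℕ) (y : ℝ) : ‖((zl y + k) ^ (n + 1))⁻¹‖ ≤ ((1 / 2 + (k : ℝ)) ^ (n + 1))⁻¹ * (1 + |y|) ^ 0 := by
  rw [norm_inv, norm_pow, pow_zero, mul_one]
  have h1 := zl_k_norm y k
  have h2 : (0:ℝ) < 1 / 2 + k := by positivity
  gcongr

lemma H_int (n k : ℕ) : Integrable (fun y : ℝ => ((zl y + k) ^ (n + 1))⁻¹ * (kap y : ℂ)) :=
  integrable_kap (H_F_cont n k) _ 0 (H_F_bd n k)

lemma kap_int : Integrable kap := by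
  have h := (integrable_kap (F := fun _ => 1) continuous_const 1 0 (by simp)).norm
  refine h.congr (Eventually.of_forall fun y => ?_)
  simp [abs_of_pos (kap_pos y)]

/-- joint integrability -/
lemma joint (n k : ℕ) : Integrable (Function.uncurry fun (y u : ℝ) =>
    ((u : ℂ) ^ n * Complex.exp (-((zl y + k) * u))) * (kap y : ℂ))
    ((volume : Measure ℝ).prod (volume.restrict (Set.Ioi 0))) := by
  have h1 : Integrable (fun p : ℝ × ℝ => kap p.1 * (p.2 ^ n * Real.exp (-((1 / 2 + (k:ℝ)) * p.2))))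
      ((volume : Measure ℝ).prod (volume.restrict (Set.Ioi 0))) :=
    kap_int.mul_prod (int_pow_exp n (by positivity))
  refine h1.mono' ?_ ?_
  · have hc : Continuous (Function.uncurry fun (y u : ℝ) =>
        ((u : ℂ) ^ n * Complex.exp (-((zl y + k) * u))) * (kap y : ℂ)) := by
      have hz : Continuous (fun p : ℝ × ℝ => zl p.1) := zl_cont.comp continuous_fst
      have hk : Continuous (fun p : ℝ × ℝ => ((kap p.1 : ℝ) : ℂ)) :=
        Complex.continuous_ofReal.comp (kap_cont.comp continuous_fst)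
      have hu : Continuous (fun p : ℝ × ℝ => ((p.2 : ℝ) : ℂ)) :=
        Complex.continuous_ofReal.comp continuous_snd
      exact ((hu.pow n).mul (Complex.continuous_exp.comp ((hz.add continuous_const).mul hu).neg)).mul hk
    exact hc.aestronglyMeasurable
  · have hm : MeasurableSet ((Set.univ : Set ℝ) ×ˢ (Set.Ioi (0:ℝ))) :=
      MeasurableSet.univ.prod measurableSet_Ioi
    have he : (volume : Measure ℝ).prod (volume.restrict (Set.Ioi 0)) =
        ((volume : Measure ℝ).prod volume).restrict (Set.univ ×ˢ Set.Ioi (0:ℝ)) := by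
      rw [← Measure.prod_restrict, Measure.restrict_univ]
    rw [he, ae_restrict_iff' hm]
    refine Eventually.of_forall fun p hp => ?_
    have hu : 0 ≤ p.2 := le_of_lt hp.2
    simp only [Function.uncurry]
    rw [norm_mul, norm_lap n _ _ hu, Complex.norm_real, Real.norm_of_nonneg (kap_pos _).le, zl_k_re]
    apply le_of_eq
    ring

lemma inner_y (n k : ℕ) (u : ℝ) :
    ∫ y : ℝ, ((u : ℂ) ^ n * Complex.exp (-((zl y + k) * u))) * (kap y : ℂ) =
      ((u ^ n * Real.exp (-(k * u)) * (1 / (1 + Real.exp u)) : ℝ) : ℂ) := by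
  have h := J_exp (-u)
  have h1 : ∀ y : ℝ, ((u : ℂ) ^ n * Complex.exp (-((zl y + k) * u))) * (kap y : ℂ) =
      ((u : ℂ) ^ n * Complex.exp (-(k * u))) * (Complex.exp (zl y * ((-u : ℝ) : ℂ)) * (kap y : ℂ)) := by
    intro y
    have e : Complex.exp (-((zl y + k) * u)) = Complex.exp (-(k * u)) * Complex.exp (zl y * ((-u : ℝ) : ℂ)) := by
      rw [← Complex.exp_add]
      congr 1
      push_cast
      ring
    rw [e]
    ring
  rw [integral_congr_ae (Eventually.of_forall h1), integral_const_mul, h, neg_neg]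
  push_cast
  ring

lemma H_eq (n : ℕ) (hn : n ≤ 1) (k : ℕ) : H n k =
    ∫ u in Set.Ioi (0:ℝ), ((u ^ n * Real.exp (-(k * u)) * (1 / (1 + Real.exp u)) : ℝ) : ℂ) := by
  unfold H J
  have h1 : ∀ y : ℝ, ((zl y + k) ^ (n + 1))⁻¹ * (kap y : ℂ) =
      ∫ u in Set.Ioi (0:ℝ), ((u : ℂ) ^ n * Complex.exp (-((zl y + k) * u))) * (kap y : ℂ) := by
    intro y
    rw [integral_mul_const, lap n hn (by rw [zl_k_re]; positivity)]
  rw [integral_congr_ae (Eventually.of_forall h1), integral_integral_swap (joint n k)]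
  refine integral_congr_ae (Eventually.of_forall fun u => ?_)
  exact inner_y n k u

lemma H_u_int (n k : ℕ) : Integrable (fun u : ℝ =>
    ((u ^ n * Real.exp (-(k * u)) * (1 / (1 + Real.exp u)) : ℝ) : ℂ)) (volume.restrict (Set.Ioi 0)) := by
  have h := (joint n k).integral_prod_right
  refine h.congr (Eventually.of_forall fun u => ?_)
  exact inner_y n k u

/-- recursion -/
lemma H_rec (n : ℕ) (hn : n ≤ 1) (k : ℕ) : H n k + H n (k + 1) = (((k : ℂ) + 1) ^ (n + 1))⁻¹ := by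
  rw [H_eq n hn, H_eq n hn, ← integral_add (H_u_int n k) (H_u_int n (k + 1)),
    ← lap n hn (z := (k : ℂ) + 1) (by simp; positivity)]
  refine integral_congr_ae (Eventually.of_forall fun u => ?_)
  simp only
  rw [← Complex.ofReal_add]
  have h1 : u ^ n * Real.exp (-(k * u)) * (1 / (1 + Real.exp u)) +
      u ^ n * Real.exp (-(((k + 1 : ℕ) : ℝ) * u)) * (1 / (1 + Real.exp u)) =
      u ^ n * Real.exp (-(((k : ℝ) + 1) * u)) := by
    have e1 : Real.exp (-(k * u)) = Real.exp (-(((k : ℝ) + 1) * u)) * Real.exp u := by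
      rw [← Real.exp_add]
      congr 1
      ring
    have h2 := Real.exp_pos u
    push_cast
    rw [e1]
    field_simp
    ring
  rw [h1]
  push_cast
  rfl

lemma H_norm (n k : ℕ) : ‖H n k‖ ≤ ((1 / 2 + (k : ℝ)) ^ (n + 1))⁻¹ * ∫ y : ℝ, kap y := by
  unfold H J
  rw [← integral_const_mul]
  refine norm_integral_le_of_norm_le (kap_int.const_mul _) (Eventually.of_forall fun y => ?_)
  rw [norm_mul, Complex.norm_real, Real.norm_of_nonneg (kap_pos y).le]
  have := H_F_bd n k y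
  rw [pow_zero, mul_one] at this
  exact mul_le_mul_of_nonneg_right this (kap_pos y).le

lemma H_tendsto (n : ℕ) : Tendsto (fun k => H n k) atTop (𝓝 0) := by
  have h1 : Tendsto (fun k : ℕ => (1 / 2 + (k : ℝ))) atTop atTop :=
    tendsto_atTop_add_const_left _ _ tendsto_natCast_atTop_atTop
  have h2 : Tendsto (fun k : ℕ => ((1 / 2 + (k : ℝ)) ^ (n + 1))⁻¹ * ∫ y : ℝ, kap y) atTop (𝓝 (0 * ∫ y : ℝ, kap y)) := by
    refine Tendsto.mul_const _ ?_
    exact (tendsto_pow_atTop (by omega)).comp h1 |>.inv_tendsto_atTop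
  rw [zero_mul] at h2
  exact squeeze_zero_norm (H_norm n) h2

/-- `(-1)^k H n k - Sh (n+1) k` does not depend on `k` -/
lemma H_Sh (n : ℕ) (hn : n ≤ 1) (k : ℕ) : (-1) ^ k * H n k = H n 0 + ((Sh (n + 1) k : ℚ) : ℂ) := by
  induction k with
  | zero => simp [Sh]
  | succ k ih =>
    have h1 : Sh (n + 1) (k + 1) = Sh (n + 1) k + (-1) ^ (k + 1) / ((k + 1 : ℕ) : ℚ) ^ (n + 1) := by
      unfold Sh
      rw [Finset.sum_Icc_succ_top (by omega)]
    have h2 := H_rec n hn k
    have h3 : H n (k + 1) = (((k : ℂ) + 1) ^ (n + 1))⁻¹ - H n k := by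
      rw [← h2]; ring
    rw [h3, h1]
    push_cast
    rw [mul_sub, pow_succ (-1 : ℂ) k]
    have h4 : (-1 : ℂ) ^ k * H n k = H n 0 + ((Sh (n + 1) k : ℚ) : ℂ) := ih
    rw [div_eq_mul_inv]
    linear_combination h4

/-- `H n 0` as a limit -/
lemma H_zero (n : ℕ) (hn : n ≤ 1) : Tendsto (fun k => ((Sh (n + 1) k : ℚ) : ℂ)) atTop (𝓝 (-H n 0)) := by
  have h1 : Tendsto (fun k => (-1 : ℂ) ^ k * H n k) atTop (𝓝 0) := by
    rw [tendsto_zero_iff_norm_tendsto_zero]
    have h2 := (H_tendsto n).norm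
    rw [norm_zero] at h2
    refine h2.congr fun k => ?_
    rw [norm_mul, norm_pow, norm_neg, norm_one, one_pow, one_mul]
  have h2 := h1.sub_const (H n 0)
  rw [zero_sub] at h2
  refine h2.congr fun k => ?_
  rw [H_Sh n hn k]
  ring

end

end Pool.Agent.H757R2.LP
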